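import Pool.Agent.X227.WR.Sim

set_option autoImplicit false

/-!
# MP_5b5905_lc: the weakly reset property of Mealy automata is undecidable

No algorithm decides whether a finite Mealy automaton, given by its tables, is weakly reset.

The states of the automaton are the letters of a stream and its letters are cells.  The cell `w`
computes one step of a fixed register machine on the stream, the source sends the initial
configuration, and the cell `s`, the only one which resets, is destroyed by the stream of a
configuration that does not halt.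
-/

namespace Pool.Agent.Results.MP_5b5905_lc.WeaklyResetUndecidable

open Pool.Agent.X227.WR Pool.Agent.X238.Osr

/-- Codes of finite Mealy automata: `(n, m, T)` stands for the automaton with the states
`0, …, n`, the letters `0, …, m` and the table `T`. -/
abbrev Code : Type := ℕ × ℕ × List (List (ℕ × ℕ))

/-- The entry of the table for the state `q` and the letter `a` (a missing entry is `(0, 0)`). -/
def entry (c : Code) (q a : ℕ) : ℕ × ℕ := (c.2.2.getD a []).getD q (0, 0)

/-- The automaton with the code `c`: the next state and the output letter are the components of the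
entry of the table (modulo the number of states and of letters). -/
def mealy (c : Code) : Mealy (Fin (c.1 + 1)) (Fin (c.2.1 + 1)) where
  dl q a := Fin.ofNat (c.1 + 1) (entry c q a).1
  lm q a := Fin.ofNat (c.2.1 + 1) (entry c q a).2

instance sq_finite {Nd : Type} {K : ℕ} [Finite Nd] : Finite (Sq Nd K) := by
  refine Finite.of_injective (fun g : Sq Nd K => match g with
    | .R => (Sum.inl 0 : Fin 3 ⊕ (Nd ⊕ (Fin (K + 1) → Bool)))
    | .I => .inl 1
    | .W => .inl 2
    | .st a => .inr (.inl a)
    | .bt b => .inr (.inr b)) ?_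
  intro a b h
  cases a <;> cases b <;> simp_all

instance fx_finite {Nd : Type} {K : ℕ} [Finite Nd] : Finite (Fx Nd K) := by
  refine Finite.of_injective (fun g : Fx Nd K => match g with
    | .w => (Sum.inl 0 : Fin 2 ⊕ (Nd ⊕ (Nd × (Fin (K + 1) → Bool) × Bool)))
    | .s => .inl 1
    | .ca a => .inr (.inl a)
    | .cr a b o => .inr (.inr (a, b, o))) ?_
  intro a b h
  cases a <;> cases b <;> simp_all

section code

variable {Nd : Type} {K : ℕ} (M : AM Nd K) {n C : ℕ} (eQ : Sq Nd K ≃ Fin (n + 1))
  (eF : Fx Nd K ≃ Fin C)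

/-- coding of the letters -/
def eA (x : ℕ) : (Fx Nd K ⊕ Fin (x + 2)) ≃ Fin (C + x + 1 + 1) :=
  ((Equiv.sumCongr eF (Equiv.refl _)).trans finSumFinEquiv).trans (finCongr (by omega))

theorem eA_inl (x : ℕ) (c : Fx Nd K) : ((eA eF x (.inl c)) : ℕ) = eF c := by
  simp [eA]

theorem eA_inr (x : ℕ) (i : Fin (x + 2)) : ((eA eF x (.inr i)) : ℕ) = C + i := by
  simp [eA]

/-- rows of the cells -/
def rowF (c : Fin C) : List (ℕ × ℕ) := List.ofFn fun q : Fin (n + 1) =>
  ((eQ (dF M (eQ.symm q) (eF.symm c)) : ℕ), (eF (lF M (eQ.symm q) (eF.symm c)) : ℕ))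

/-- rows of the source -/
def rowJ (C : ℕ) (x i : ℕ) : List (ℕ × ℕ) := (List.finRange (n + 1)).map fun q =>
  ((eQ (dJ M x i (eQ.symm q)) : ℕ), C + lJ x i (eQ.symm q))

/-- the table -/
def tab (x : ℕ) : List (List (ℕ × ℕ)) :=
  List.ofFn (rowF M eQ eF) ++ (List.range (x + 2)).map (rowJ M eQ C x)

/-- the code -/
def cod (x : ℕ) : Code := (n, C + x + 1, tab M eQ eF x)

theorem entry_inl (x : ℕ) (q : Sq Nd K) (c : Fx Nd K) :
    entry (cod M eQ eF x) (eQ q) (eF c) = ((eQ (dF M q c) : ℕ), (eF (lF M q c) : ℕ)) := by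
  have h1 : (tab M eQ eF x).getD (eF c) [] = rowF M eQ eF (eF c) := by
    have hl : ((eF c : Fin C) : ℕ) < (List.ofFn (rowF M eQ eF)).length := by
      rw [List.length_ofFn]; exact (eF c).2
    unfold tab
    rw [List.getD_append _ _ _ _ hl, List.getD_eq_getElem _ _ hl, List.getElem_ofFn]
  unfold entry cod
  simp only
  rw [h1]
  have hl : ((eQ q : Fin (n + 1)) : ℕ) < (rowF M eQ eF (eF c)).length := by
    rw [rowF, List.length_ofFn]; exact (eQ q).2
  rw [List.getD_eq_getElem _ _ hl]
  simp only [rowF, List.getElem_ofFn, Fin.eta, Equiv.symm_apply_apply]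

theorem entry_inr (x : ℕ) (q : Sq Nd K) (i : Fin (x + 2)) :
    entry (cod M eQ eF x) (eQ q) (C + i) = ((eQ (dJ M x i q) : ℕ), C + lJ x i q) := by
  have h1 : (tab M eQ eF x).getD (C + i) [] = rowJ M eQ C x i := by
    unfold tab
    rw [List.getD_append_right _ _ _ _ (by rw [List.length_ofFn]; omega), List.length_ofFn,
      Nat.add_sub_cancel_left]
    have hl : (i : ℕ) < ((List.range (x + 2)).map (rowJ M eQ C x)).length := by
      simp
    rw [List.getD_eq_getElem _ _ hl]
    simp
  unfold entry cod
  simp only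
  rw [h1]
  have hl : ((eQ q : Fin (n + 1)) : ℕ) < (rowJ M eQ C x i).length := by
    rw [rowJ, List.length_map, List.length_finRange]; exact (eQ q).2
  rw [List.getD_eq_getElem _ _ hl]
  simp [rowJ]

theorem cod_iff (x : ℕ) : (Ms M x).WeaklyReset ↔ (mealy (cod M eQ eF x)).WeaklyReset := by
  refine weaklyReset_iff (M := Ms M x) (M' := mealy (cod M eQ eF x)) eQ (eA eF x) ?_ ?_
  · intro q a
    apply Fin.ext
    change (entry (cod M eQ eF x) (eQ q) (eA eF x a)).1 % (n + 1) = _
    cases a with
    | inl c =>
      rw [eA_inl, entry_inl]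
      exact Nat.mod_eq_of_lt (eQ _).2
    | inr i =>
      rw [eA_inr, entry_inr]
      exact Nat.mod_eq_of_lt (eQ _).2
  · intro q a
    apply Fin.ext
    change (entry (cod M eQ eF x) (eQ q) (eA eF x a)).2 % (C + x + 1 + 1) = _
    cases a with
    | inl c =>
      rw [eA_inl, entry_inl]
      change (eF (lF M q c) : ℕ) % _ = ((eA eF x (.inl (lF M q c))) : ℕ)
      rw [eA_inl]
      refine Nat.mod_eq_of_lt ?_
      have := (eF (lF M q c)).2
      omega
    | inr i =>
      rw [eA_inr, entry_inr]
      change (C + lJ x i q) % _ = ((eA eF x (.inr ⟨lJ x i q, lJ_lt x i q⟩)) : ℕ)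
      rw [eA_inr]
      refine Nat.mod_eq_of_lt ?_
      have := lJ_lt x i q
      omega

/-! ### computability -/

theorem primrec_map {β γ : Type} [Primcodable γ] {α : Type} [Primcodable α] (f : β → α → γ)
    (hf : ∀ b, Primrec (f b)) (l : List β) : Primrec fun p : α => l.map fun b => f b p := by
  induction l with
  | nil => exact Primrec.const []
  | cons b l ih => exact Primrec.list_cons.comp (hf b) ih

theorem oJ_eq (x i : ℕ) : oJ M x i = if i = 0 then .st M.st else
    if i ≤ x then .bt (fun j => decide (j = 0)) else .bt (fun _ => false) := by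
  unfold oJ
  split_ifs with h1 h2
  · rfl
  · congr 1
    funext j
    simp [h2]
  · congr 1
    funext j
    simp only [decide_eq_false_iff_not, not_and]
    intro _
    exact h2

theorem primrec_oJ : Primrec fun p : ℕ × ℕ => (eQ (oJ M p.1 p.2) : ℕ) := by
  have h : Primrec fun p : ℕ × ℕ => if p.2 = 0 then (eQ (.st M.st) : ℕ) else
      if p.2 ≤ p.1 then (eQ (.bt (fun j => decide (j = 0))) : ℕ)
        else (eQ (.bt (fun _ => false)) : ℕ) :=
    Primrec.ite (Primrec.eq.comp Primrec.snd (Primrec.const 0)) (Primrec.const _)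
      (Primrec.ite (Primrec.nat_le.comp Primrec.snd Primrec.fst) (Primrec.const _)
        (Primrec.const _))
  refine h.of_eq fun p => ?_
  rw [oJ_eq]
  split_ifs <;> rfl

theorem primrec_rowJ (C : ℕ) : Primrec fun p : ℕ × ℕ => rowJ M eQ C p.1 p.2 := by
  unfold rowJ
  refine primrec_map (fun (q : Fin (n + 1)) (p : ℕ × ℕ) =>
    ((eQ (dJ M p.1 p.2 (eQ.symm q)) : ℕ), C + lJ p.1 p.2 (eQ.symm q))) ?_ _
  intro q
  have hclk : Primrec fun p : ℕ × ℕ => ((eQ (oJ M p.1 p.2) : ℕ), C + min (p.2 + 1) (p.1 + 1)) :=
    (primrec_oJ M eQ).pair (Primrec.nat_add.comp (Primrec.const C)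
      (Primrec.nat_min.comp (Primrec.succ.comp Primrec.snd) (Primrec.succ.comp Primrec.fst)))
  cases eQ.symm q with
  | R => exact Primrec.const ((eQ .R : ℕ), C + 0)
  | I =>
    exact (Primrec.const (eQ .I : ℕ)).pair (Primrec.nat_add.comp (Primrec.const C)
      (Primrec.nat_min.comp Primrec.snd (Primrec.succ.comp Primrec.fst)))
  | W => exact hclk
  | st a => exact hclk
  | bt b => exact hclk

theorem cod_computable : Computable (cod M eQ eF) := by
  apply Primrec.to_comp
  have h1 : Primrec (tab M eQ eF) := by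
    unfold tab
    exact Primrec.list_append.comp (Primrec.const _)
      (Primrec.list_map (Primrec.list_range.comp (Primrec.succ.comp Primrec.succ))
        (primrec_rowJ M eQ C).to₂)
  exact (Primrec.const n).pair ((Primrec.succ.comp
    (Primrec.nat_add.comp (Primrec.const C) Primrec.id)).pair h1)

end code

/-- **Main theorem.** The weakly reset property of finite Mealy automata is undecidable. -/
theorem result : ¬ ComputablePred fun c : Code => (mealy c).WeaklyReset := by
  obtain ⟨Nd, hfin, K, M, hund⟩ := exists_am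
  obtain ⟨N, ⟨eQ'⟩⟩ := Finite.exists_equiv_fin (Sq Nd K)
  obtain ⟨C, ⟨eF⟩⟩ := Finite.exists_equiv_fin (Fx Nd K)
  obtain ⟨n, rfl⟩ : ∃ n, N = n + 1 := by
    have : 0 < N := (eQ' .R).pos
    exact ⟨N - 1, by omega⟩
  intro hc
  apply hund
  refine ComputablePred.computable_of_manyOneReducible
    ⟨cod M eQ' eF, cod_computable M eQ' eF, fun x => ?_⟩ hc
  change M.Hlt M.st (rini x) ↔ _
  rw [← cod_iff, hlt_iff]
  constructor
  · rintro ⟨m, hm⟩
    exact halts_weaklyReset M hm
  · intro h
    by_contra hh
    simp only [not_exists, Bool.not_eq_true] at hh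
    exact weaklyReset_halts M hh h

end Pool.Agent.Results.MP_5b5905_lc.WeaklyResetUndecidable
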